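import Pool.Agent.Helper6.O3.St

/-! # Module P2 of project O3: period two up to scaling -/

set_option autoImplicit false

namespace Pool.Agent.Helper47.O3

open Pool.Agent.Helper6.O3 Filter Topology
open Pool.Agent.Helper99.DF (T TL sq chk Cert ver StVER StTRA StCMP StSND StPR1 StPRC StVP)

theorem hP2 : StP2 := by
  intro c la mu h0 hla hmu hTT hc hT
  have key : ∀ t : ℕ, (∀ k, 0 ≤ (T^[t] c) k) ∧ (∀ k, 0 ≤ (T^[t + 1] c) k) := by
    intro t
    induction t with
    | zero => exact ⟨hc, hT⟩
    | succ t ih =>
      refine ⟨ih.2, fun k => ?_⟩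
      have e1 : T^[t + 1 + 1] c = T^[t] (fun k => la * mu ^ k * c k) := by
        rw [Function.iterate_succ_apply, Function.iterate_succ_apply]
        exact congrArg _ (funext hTT)
      rw [e1, T_scale la mu c h0 t]
      have := ih.1 k
      positivity
  exact fun t k => (key t).1 k

end Pool.Agent.Helper47.O3
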